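import Mathlib

/-!
# Equality of degrees is definable in the polynomial ring over an algebraically closed field

Helper file for problem MP_d395f7_lc: formulas of the language of rings and their meaning.
-/

set_option autoImplicit false

namespace Pool.Agent.TH729.Deg

open FirstOrder FirstOrder.Language FirstOrder.Ring Polynomial

universe u

/-- terms with two free variables and `n` quantified variables -/
abbrev T (n : ℕ) := Language.ring.Term (Fin 2 ⊕ Fin n)

/-- formulas with two free variables and `n` quantified variables -/
abbrev B (n : ℕ) := Language.ring.BoundedFormula (Fin 2) n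

/-- a term, seen below one more quantifier -/
def up {n : ℕ} (t : T n) : T (n + 1) := t.relabel (Sum.map id Fin.castSucc)

/-- the last quantified variable -/
def last (n : ℕ) : T (n + 1) := Term.var (Sum.inr (Fin.last n))

/-- `t` is a unit -/
def unitF {n : ℕ} (t : T n) : B n := (Term.bdEqual (up t * last n) 1).ex

/-- `s` divides `t` -/
def dvdF {n : ℕ} (s t : T n) : B n := (Term.bdEqual (up t) (up s * last n)).ex

/-- `t` is zero or a unit -/
def constF {n : ℕ} (t : T n) : B n := Term.bdEqual t 0 ⊔ unitF t

/-- `t` is squarefree -/
def sqfF {n : ℕ} (t : T n) : B n := ((dvdF (last n * last n) (up t)).imp (unitF (last n))).all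

/-- `t` is irreducible -/
def irrF {n : ℕ} (t : T n) : B n :=
  (unitF t).not ⊓ (((Term.bdEqual (up (up t)) (up (last n) * last (n + 1))).imp
    (unitF (up (last n)) ⊔ unitF (last (n + 1)))).all).all

section Realize

variable {R : Type u} [CommRing R] [CompatibleRing R]

theorem realize_up {n : ℕ} (t : T n) (v : Fin 2 → R) (xs : Fin n → R) (a : R) :
    (up t).realize (Sum.elim v (Fin.snoc xs a : Fin (n + 1) → R)) =
      t.realize (Sum.elim v xs) := by
  unfold up
  rw [Term.realize_relabel]
  congr 1
  funext i
  rcases i with i | i
  · rfl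
  · simp [Fin.snoc_castSucc]

theorem realize_last (n : ℕ) (v : Fin 2 → R) (xs : Fin n → R) (a : R) :
    (last n).realize (Sum.elim v (Fin.snoc xs a : Fin (n + 1) → R)) = a := by
  simp [last]

theorem realize_unitF {n : ℕ} (t : T n) (v : Fin 2 → R) (xs : Fin n → R) :
    (unitF t).Realize v xs ↔ IsUnit (t.realize (Sum.elim v xs)) := by
  simp only [unitF, BoundedFormula.realize_ex, BoundedFormula.realize_bdEqual, realize_mul,
    realize_one, realize_up, realize_last]
  constructor
  · rintro ⟨a, ha⟩
    exact IsUnit.of_mul_eq_one a ha
  · intro h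
    exact h.exists_right_inv

theorem realize_dvdF {n : ℕ} (s t : T n) (v : Fin 2 → R) (xs : Fin n → R) :
    (dvdF s t).Realize v xs ↔ s.realize (Sum.elim v xs) ∣ t.realize (Sum.elim v xs) := by
  simp only [dvdF, BoundedFormula.realize_ex, BoundedFormula.realize_bdEqual, realize_mul,
    realize_up, realize_last]
  exact Iff.rfl

theorem realize_constF {n : ℕ} (t : T n) (v : Fin 2 → R) (xs : Fin n → R) :
    (constF t).Realize v xs ↔ (t.realize (Sum.elim v xs) = 0 ∨
      IsUnit (t.realize (Sum.elim v xs))) := by
  simp only [constF, BoundedFormula.realize_sup, BoundedFormula.realize_bdEqual, realize_zero,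
    realize_unitF]

theorem realize_sqfF {n : ℕ} (t : T n) (v : Fin 2 → R) (xs : Fin n → R) :
    (sqfF t).Realize v xs ↔ Squarefree (t.realize (Sum.elim v xs)) := by
  simp only [sqfF, BoundedFormula.realize_all, BoundedFormula.realize_imp, realize_dvdF,
    realize_unitF, realize_mul, realize_last, realize_up, Squarefree]

theorem realize_irrF {n : ℕ} (t : T n) (v : Fin 2 → R) (xs : Fin n → R) :
    (irrF t).Realize v xs ↔ Irreducible (t.realize (Sum.elim v xs)) := by
  simp only [irrF, BoundedFormula.realize_inf, BoundedFormula.realize_not,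
    BoundedFormula.realize_all, BoundedFormula.realize_imp, BoundedFormula.realize_bdEqual,
    BoundedFormula.realize_sup, realize_unitF, realize_mul, realize_up, realize_last]
  rw [irreducible_iff]

end Realize

/-- The matrix of the formula: the quantified variables are, in this order,
`t, a, b, c, d, h`; the terms `p, q` stand for `(t - a) f - c` and `(t - b) g - d`. -/
def coreF {n : ℕ} (t h p q : T n) : B n :=
  sqfF p ⊓ sqfF q ⊓
  -- for all constants `x` with `t - x ∣ p`
  ((constF (last n)).imp ((dvdF (up t + -last n) (up p)).imp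
    -- there is a constant `y` with `t - y ∣ q` and `t - x ∣ h - y`
    ((constF (last (n + 1)) ⊓ dvdF (up (up t) + -last (n + 1)) (up (up q)) ⊓
      dvdF (up (up t) + -up (last n)) (up (up h) + -last (n + 1)) ⊓
      -- and `x` is the only constant with these properties
      ((constF (last (n + 2))).imp
        ((dvdF (up (up (up t)) + -last (n + 2)) (up (up (up p)))).imp
          ((dvdF (up (up (up t)) + -last (n + 2)) (up (up (up h)) + -up (last (n + 1)))).imp
            (Term.bdEqual (last (n + 2)) (up (up (last n))))))).all).ex))).all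

/-- The formula for `deg f ≤ deg g`. -/
def leF (f g : T 0) : B 0 :=
  Term.bdEqual f 0 ⊔ ((Term.bdEqual g 0).not ⊓
    -- `∃ t a b c d h`
    ((((((irrF (up (up (up (up (up (last 0)))))) ⊓
      constF (up (up (up (up (last 1))))) ⊓
      constF (up (up (up (last 2)))) ⊓
      constF (up (up (last 3))) ⊓
      constF (up (last 4)) ⊓
      coreF (up (up (up (up (up (last 0)))))) (last 5)
        ((up (up (up (up (up (last 0))))) + -up (up (up (up (last 1))))) *
          up (up (up (up (up (up f))))) + -up (up (last 3)))
        ((up (up (up (up (up (last 0))))) + -up (up (up (last 2)))) *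
          up (up (up (up (up (up g))))) + -up (last 4))).ex).ex).ex).ex).ex).ex)

/-- The formula for `deg f = deg g`. -/
def eqF : Language.ring.Formula (Fin 2) :=
  leF (Term.var (Sum.inl 0)) (Term.var (Sum.inl 1)) ⊓
    leF (Term.var (Sum.inl 1)) (Term.var (Sum.inl 0))

section Meaning

variable {R : Type u} [CommRing R]

/-- zero or a unit -/
def Const (x : R) : Prop := x = 0 ∨ IsUnit x

/-- the meaning of `coreF` -/
def Core (t h p q : R) : Prop :=
  (Squarefree p ∧ Squarefree q) ∧ ∀ x : R, Const x → t + -x ∣ p →
    ∃ y : R, ((Const y ∧ t + -y ∣ q) ∧ t + -x ∣ h + -y) ∧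
      ∀ z : R, Const z → t + -z ∣ p → t + -z ∣ h + -y → z = x

/-- the meaning of `leF` -/
def Le (f g : R) : Prop :=
  f = 0 ∨ (¬ g = 0 ∧ ∃ t a b c d h : R, ((((Irreducible t ∧ Const a) ∧ Const b) ∧ Const c) ∧
    Const d) ∧ Core t h ((t + -a) * f + -c) ((t + -b) * g + -d))

variable [CompatibleRing R]

theorem realize_coreF {n : ℕ} (t h p q : T n) (v : Fin 2 → R) (xs : Fin n → R) :
    (coreF t h p q).Realize v xs ↔ Core (t.realize (Sum.elim v xs)) (h.realize (Sum.elim v xs))
      (p.realize (Sum.elim v xs)) (q.realize (Sum.elim v xs)) := by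
  simp only [coreF, Core, BoundedFormula.realize_inf, BoundedFormula.realize_all,
    BoundedFormula.realize_imp, BoundedFormula.realize_ex, BoundedFormula.realize_bdEqual,
    realize_sqfF, realize_constF, realize_dvdF, realize_add, realize_neg, realize_up,
    realize_last, Const]

theorem realize_leF (f g : T 0) (v : Fin 2 → R) (xs : Fin 0 → R) :
    (leF f g).Realize v xs ↔ Le (f.realize (Sum.elim v xs)) (g.realize (Sum.elim v xs)) := by
  simp only [leF, Le, BoundedFormula.realize_inf, BoundedFormula.realize_sup,
    BoundedFormula.realize_not, BoundedFormula.realize_ex, BoundedFormula.realize_bdEqual,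
    realize_coreF, realize_irrF, realize_constF, realize_add, realize_mul, realize_neg,
    realize_zero, realize_up, realize_last, Const]

theorem realize_eqF (f g : R) :
    eqF.Realize ![f, g] ↔ Le f g ∧ Le g f := by
  unfold eqF Formula.Realize
  rw [BoundedFormula.realize_inf, realize_leF, realize_leF]
  simp

end Meaning

end Pool.Agent.TH729.Deg
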