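import Pool.Agent.TH729.Deg

/-!
# The meaning of the formula in polynomial rings over algebraically closed fields
-/

set_option autoImplicit false

namespace Pool.Agent.TH729.Deg

open Polynomial

universe u

variable {k : Type u} [Field k]

theorem const_iff (x : k[X]) : Const x ↔ ∃ c : k, x = C c := by
  unfold Const
  rw [Polynomial.isUnit_iff]
  constructor
  · rintro (h | ⟨c, -, h⟩)
    · exact ⟨0, by simp [h]⟩
    · exact ⟨c, h.symm⟩
  · rintro ⟨c, rfl⟩
    by_cases hc : c = 0
    · left; simp [hc]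
    · right; exact ⟨c, isUnit_iff_ne_zero.2 hc, rfl⟩

theorem const_C (c : k) : Const (C c : k[X]) := (const_iff _).2 ⟨c, rfl⟩

/-- for `t = u X + w`, `t - c` divides `p` iff `p` vanishes at the zero of `t - c` -/
theorem lin_dvd {u w : k} (hu : u ≠ 0) (c : k) (p : k[X]) :
    (C u * X + C w) + -C c ∣ p ↔ p.eval ((c - w) / u) = 0 := by
  have h : (C u * X + C w) + -C c = C u * (X - C ((c - w) / u)) := by
    have : C u * C ((c - w) / u) = C (c - w) := by
      rw [← C_mul, mul_div_cancel₀ _ hu]
    rw [mul_sub, this, C_sub]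
    ring
  rw [h]
  have hu' : IsUnit (C u) := Polynomial.isUnit_C.2 (isUnit_iff_ne_zero.2 hu)
  rw [hu'.mul_left_dvd, Polynomial.dvd_iff_isRoot]
  rfl

/-- the degree of `(t - a) f - c` -/
theorem natDegree_lin {u w : k} (hu : u ≠ 0) (a c : k) {f : k[X]} (hf : f ≠ 0) :
    (((C u * X + C w) + -C a) * f + -C c).natDegree = f.natDegree + 1 := by
  have e : (C u * X + C w) + -C a = C u * X + C (w - a) := by
    rw [C_sub]; ring
  have h1 : (C u * X + C (w - a)).natDegree = 1 := natDegree_linear hu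
  have h0 : C u * X + C (w - a) ≠ 0 := by
    intro h
    rw [h, natDegree_zero] at h1
    omega
  rw [e, ← C_neg, natDegree_add_C, natDegree_mul h0 hf, h1, add_comm]

variable [IsAlgClosed k]

theorem irr_form {t : k[X]} (ht : Irreducible t) : ∃ u w : k, u ≠ 0 ∧ t = C u * X + C w := by
  have h := IsAlgClosed.degree_eq_one_of_irreducible k ht
  refine ⟨t.coeff 1, t.coeff 0, ?_, ?_⟩
  · intro h0
    have h1 : t.leadingCoeff = 0 := by
      rw [leadingCoeff, natDegree_eq_of_degree_eq_some h]
      exact h0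
    rw [leadingCoeff_eq_zero] at h1
    exact ht.ne_zero h1
  · exact Polynomial.eq_X_add_C_of_degree_le_one h.le

theorem card_roots_sqf [DecidableEq k] {p : k[X]} (hp : Squarefree p) :
    p.roots.toFinset.card = p.natDegree := by
  rw [Multiset.toFinset_card_of_nodup, IsAlgClosed.card_roots_eq_natDegree]
  exact Polynomial.nodup_roots (PerfectField.separable_iff_squarefree.2 hp)

/-- `Core` gives an injection of the zeros of `p` into the zeros of `q`. -/
theorem core_le {t h p q : k[X]} {u w : k} (hu : u ≠ 0) (ht : t = C u * X + C w)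
    (hc : Core t h p q) : p.natDegree ≤ q.natDegree := by
  classical
  obtain ⟨⟨hp, hq⟩, hc⟩ := hc
  subst ht
  rw [← card_roots_sqf hp, ← card_roots_sqf hq]
  have hp0 : p ≠ 0 := hp.ne_zero
  have hq0 : q ≠ 0 := hq.ne_zero
  -- the map `r ↦ (h(r) - w) / u`
  refine Finset.card_le_card_of_injOn (fun r => (h.eval r - w) / u) ?_ ?_
  · intro r hr
    rw [Finset.mem_coe, Multiset.mem_toFinset, mem_roots hp0] at hr
    have hr' : p.eval ((u * r + w - w) / u) = 0 := by
      rw [add_sub_cancel_right, mul_div_cancel_left₀ _ hu]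
      exact hr
    obtain ⟨y, ⟨⟨hy, h1⟩, h2⟩, -⟩ := hc (C (u * r + w)) (const_C _) ((lin_dvd hu _ _).2 hr')
    obtain ⟨y, rfl⟩ := (const_iff y).1 hy
    rw [lin_dvd hu] at h1 h2
    rw [add_sub_cancel_right, mul_div_cancel_left₀ _ hu, eval_add, eval_neg, eval_C,
      add_neg_eq_zero] at h2
    rw [Finset.mem_coe, Multiset.mem_toFinset, mem_roots hq0]
    show q.eval ((h.eval r - w) / u) = 0
    rw [← h1, h2]
  · intro r hr r' hr' hrr
    rw [Finset.mem_coe, Multiset.mem_toFinset, mem_roots hp0] at hr hr'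
    have e : h.eval r = h.eval r' := by
      have h3 : (h.eval r - w) / u = (h.eval r' - w) / u := hrr
      rw [div_left_inj' hu] at h3
      exact sub_left_injective h3
    have aux : ∀ s : k, (u * s + w - w) / u = s := fun s => by
      rw [add_sub_cancel_right, mul_div_cancel_left₀ _ hu]
    obtain ⟨y, ⟨⟨hy, h1⟩, h2⟩, h3⟩ := hc (C (u * r + w)) (const_C _)
      ((lin_dvd hu _ _).2 (by rw [aux]; exact hr))
    obtain ⟨y, rfl⟩ := (const_iff y).1 hy
    rw [lin_dvd hu] at h1 h2
    rw [aux, eval_add, eval_neg, eval_C, add_neg_eq_zero] at h2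
    have h4 := h3 (C (u * r' + w)) (const_C _) ((lin_dvd hu _ _).2 (by rw [aux]; exact hr'))
      ((lin_dvd hu _ _).2 (by rw [aux, eval_add, eval_neg, eval_C, ← h2, e, add_neg_cancel]))
    have h5 := C_injective h4
    have h6 : u * r' = u * r := by
      exact add_right_cancel h5
    exact (mul_left_cancel₀ hu h6).symm

/-- Lagrange interpolation gives `Core`. -/
theorem core_of_le {p q : k[X]} (hp : Squarefree p) (hq : Squarefree q)
    (hle : p.natDegree ≤ q.natDegree) : ∃ h : k[X], Core (C 1 * X + C 0) h p q := by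
  classical
  rw [← card_roots_sqf hp, ← card_roots_sqf hq] at hle
  have hp0 : p ≠ 0 := hp.ne_zero
  have hq0 : q ≠ 0 := hq.ne_zero
  obtain ⟨φ⟩ : Nonempty (p.roots.toFinset ↪ q.roots.toFinset) := by
    refine Function.Embedding.nonempty_of_card_le ?_
    simpa using hle
  let ψ : k → k := fun r => if hr : r ∈ p.roots.toFinset then (φ ⟨r, hr⟩ : k) else 0
  have hψ : ∀ r (hr : r ∈ p.roots.toFinset), ψ r = φ ⟨r, hr⟩ := fun r hr => dif_pos hr
  let h : k[X] := Lagrange.interpolate p.roots.toFinset id ψ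
  have hh : ∀ r ∈ p.roots.toFinset, h.eval r = ψ r := fun r hr =>
    Lagrange.eval_interpolate_at_node ψ (Set.injOn_id _) hr
  have aux : ∀ s : k, (s - 0) / 1 = s := fun s => by rw [sub_zero, div_one]
  have mp : ∀ r : k, r ∈ p.roots.toFinset ↔ p.eval r = 0 := fun r => by
    rw [Multiset.mem_toFinset, mem_roots hp0]; rfl
  have mq : ∀ r : k, r ∈ q.roots.toFinset ↔ q.eval r = 0 := fun r => by
    rw [Multiset.mem_toFinset, mem_roots hq0]; rfl
  refine ⟨h, ⟨hp, hq⟩, ?_⟩
  intro x hx hxp
  obtain ⟨x, rfl⟩ := (const_iff x).1 hx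
  rw [lin_dvd one_ne_zero, aux, ← mp] at hxp
  refine ⟨C (ψ x), ⟨⟨const_C _, ?_⟩, ?_⟩, ?_⟩
  · rw [lin_dvd one_ne_zero, aux, ← mq, hψ x hxp]
    exact (φ ⟨x, hxp⟩).2
  · rw [lin_dvd one_ne_zero, aux, eval_add, eval_neg, eval_C, hh x hxp, add_neg_cancel]
  · intro z hz hzp hzh
    obtain ⟨z, rfl⟩ := (const_iff z).1 hz
    rw [lin_dvd one_ne_zero, aux, ← mp] at hzp
    rw [lin_dvd one_ne_zero, aux, eval_add, eval_neg, eval_C, hh z hzp, add_neg_eq_zero,
      hψ z hzp, hψ x hxp] at hzh
    have h1 := φ.injective (Subtype.ext hzh)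
    rw [Subtype.mk.injEq] at h1
    rw [h1]

/-- a squarefree polynomial of the form `(X - a) f - c` -/
theorem exists_sqf {f : k[X]} (hf : f ≠ 0) :
    ∃ a c : k, Squarefree (((C 1 * X + C 0) + -C a) * f + -C c) := by
  classical
  -- the derivative does not vanish for some `a`
  obtain ⟨a, ha⟩ : ∃ a : k, derivative (((C 1 * X + C 0) + -C a) * f) ≠ 0 := by
    by_contra hcon
    push Not at hcon
    have h0 := hcon 0
    have h1 := hcon 1
    have h2 : derivative f = 0 := by
      have h3 : f = (((C 1 * X + C 0) + -C 0) * f) - (((C 1 * X + C 0) + -C 1) * f) := by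
        simp only [C_0, C_1]; ring
      rw [h3, derivative_sub, h0, h1, sub_zero]
    rw [derivative_mul, h2, mul_zero, add_zero] at h0
    simp only [C_0, C_1, one_mul, add_zero, neg_zero, derivative_X] at h0
    exact hf h0
  generalize hP : ((C 1 * X + C 0) + -C a) * f = P at ha
  -- avoid the critical values
  obtain ⟨c, hc⟩ := Infinite.exists_notMem_finset ((derivative P).roots.toFinset.image
    (fun r => P.eval r))
  refine ⟨a, c, ?_⟩
  rw [hP, ← PerfectField.separable_iff_squarefree, Polynomial.separable_def,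
    Polynomial.isCoprime_iff_aeval_ne_zero_of_isAlgClosed k k]
  intro r
  by_contra hcon
  push Not at hcon
  obtain ⟨h1, h2⟩ := hcon
  rw [derivative_add, derivative_neg, derivative_C, neg_zero, add_zero] at h2
  apply hc
  rw [Finset.mem_image]
  refine ⟨r, ?_, ?_⟩
  · rw [Multiset.mem_toFinset, mem_roots ha]
    simpa using h2
  · simp only [map_add, map_neg, aeval_C, Algebra.algebraMap_self, RingHom.id_apply] at h1
    rw [add_neg_eq_zero] at h1
    simpa using h1

/-- The meaning of the formula. -/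
theorem le_iff (f g : k[X]) : Le f g ↔ f.degree ≤ g.degree := by
  unfold Le
  constructor
  · rintro (rfl | ⟨hg, t, a, b, c, d, h, ⟨⟨⟨⟨ht, ha⟩, hb⟩, hc⟩, hd⟩, hcore⟩)
    · simp
    · obtain ⟨a, rfl⟩ := (const_iff a).1 ha
      obtain ⟨b, rfl⟩ := (const_iff b).1 hb
      obtain ⟨c, rfl⟩ := (const_iff c).1 hc
      obtain ⟨d, rfl⟩ := (const_iff d).1 hd
      obtain ⟨u, w, hu, rfl⟩ := irr_form ht
      by_cases hf : f = 0
      · simp [hf]
      · have h1 := core_le hu rfl hcore
        rw [natDegree_lin hu a c hf, natDegree_lin hu b d hg] at h1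
        rw [degree_eq_natDegree hf, degree_eq_natDegree hg]
        exact_mod_cast (by omega : f.natDegree ≤ g.natDegree)
  · intro hle
    by_cases hf : f = 0
    · exact Or.inl hf
    · right
      have hg : g ≠ 0 := by
        rintro rfl
        rw [degree_zero, le_bot_iff, degree_eq_bot] at hle
        exact hf hle
      obtain ⟨a, c, h1⟩ := exists_sqf hf
      obtain ⟨b, d, h2⟩ := exists_sqf hg
      have h3 := natDegree_le_natDegree hle
      obtain ⟨h, hh⟩ := core_of_le h1 h2 (by
        rw [natDegree_lin one_ne_zero a c hf, natDegree_lin one_ne_zero b d hg]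
        omega)
      refine ⟨hg, C 1 * X + C 0, C a, C b, C c, C d, h, ⟨⟨⟨⟨?_, const_C _⟩, const_C _⟩,
        const_C _⟩, const_C _⟩, hh⟩
      have : (C 1 * X + C 0 : k[X]) = X := by simp
      rw [this]
      exact irreducible_X

end Pool.Agent.TH729.Deg
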